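import Pool.Agent.H108R3.Had.Det

/-!
# Sign matrices of every order with nearly extremal determinant

Hadamard's inequality bounds the determinant of an `n × n` matrix with entries `±1` by
`n ^ (n / 2)`, with equality exactly for Hadamard matrices.  There is a constant `C` such that for
every order `n ≥ 3` there is such a matrix whose determinant is at least
`n ^ (n / 2) * exp (- exp (C * ℓ * (1 + log ℓ) ^ 2))`, where `ℓ = 1 + log log n`.
-/

namespace Pool.Agent.Results.MP_d8b1b3_co.DeterminantLogLog

theorem result : ∃ C : ℝ, ∀ n : ℕ, 3 ≤ n →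
    ∃ B : Matrix (Fin n) (Fin n) ℤ, (∀ i j, B i j = 1 ∨ B i j = -1) ∧
      (n : ℝ) ^ ((n : ℝ) / 2) * Real.exp (-Real.exp (C * (1 + Real.log (Real.log n)) *
        (1 + Real.log (1 + Real.log (Real.log n))) ^ 2)) ≤ (B.det : ℝ) := by
  obtain ⟨C, _, h⟩ := Pool.Agent.H108R3.Had.det_loglog
  exact ⟨C, h⟩

end Pool.Agent.Results.MP_d8b1b3_co.DeterminantLogLog
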