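import Pool.Agent.H108R3.Had.Main

/-!
# Hadamard matrices of order `2 ^ t * q` for all `t ≥ (log log q) ^ (1 + o(1))`

There is a constant `C` such that for every integer `q ≥ 3` and every integer
`t ≥ C * ℓ * (1 + log ℓ) ^ 2`, where `ℓ = 1 + log log q`, there is a Hadamard matrix of order
`2 ^ t * q`.
-/

namespace Pool.Agent.Results.MP_d8b1b3_co.LogLogExistence

theorem result : ∃ C : ℝ, ∀ q t : ℕ, 3 ≤ q →
    C * (1 + Real.log (Real.log q)) * (1 + Real.log (1 + Real.log (Real.log q))) ^ 2 ≤ t →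
    ∃ H : Matrix (Fin (2 ^ t * q)) (Fin (2 ^ t * q)) ℤ,
      (∀ i j, H i j = 1 ∨ H i j = -1) ∧
      H * H.transpose = ((2 ^ t * q : ℕ) : ℤ) •
        (1 : Matrix (Fin (2 ^ t * q)) (Fin (2 ^ t * q)) ℤ) := by
  obtain ⟨C, _, h⟩ := Pool.Agent.H108R3.Had.had_loglog
  exact ⟨C, fun q t hq ht => h q t hq ht⟩

end Pool.Agent.Results.MP_d8b1b3_co.LogLogExistence
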