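import Pool.Agent.H114R2.ModB

/-!
# Modular Hadamard matrices of all large orders

An `m`-modular Hadamard matrix of order `n` is an `n × n` sign matrix whose distinct rows have
inner products divisible by `m`.  For every `m ≥ 1` there is `N` such that an `m`-modular Hadamard
matrix of order `n` exists for every `n ≥ N` divisible by four, provided that `8 ∤ m` (in
particular for every odd `m`), or `8 ∣ n` (every `m`), or `m = 2 ^ a * l ^ b` with `l` prime, or one
of `n - 1`, `n / 2 - 1` is coprime to `m`.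
-/

namespace Pool.Agent.Results.MP_d8b1b3_co.ModularAllModuli

theorem result : ∀ m : ℕ, 0 < m → ∃ N : ℕ, ∀ n : ℕ, N ≤ n → 4 ∣ n →
    (¬ 8 ∣ m ∨ 8 ∣ n ∨ (∃ l a b : ℕ, l.Prime ∧ m = 2 ^ a * l ^ b) ∨
      (n - 1).Coprime m ∨ (n / 2 - 1).Coprime m) →
    ∃ H : Matrix (Fin n) (Fin n) ℤ, (∀ i j, H i j = 1 ∨ H i j = -1) ∧
      ∀ i j, i ≠ j → (m : ℤ) ∣ (H * H.transpose) i j :=
  fun m hm => Pool.Agent.H114R2.modular_all_two m hm

end Pool.Agent.Results.MP_d8b1b3_co.ModularAllModuli
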