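import Pool.Agent.H816R2.GS223
import Pool.Agent.H816R2.GS311
import Pool.Agent.H816R2.GS487
import Pool.Agent.H816R2.GSMul

/-!
Hadamard matrices of the new orders `4 * q`, and `8 * (q * b)` for every Hadamard order `4 * b`,
where `q = 223, 311, 487`.
-/

namespace Pool.Agent.Results.MP_d8b1b3_co.NewOrders

open Pool.Agent.H816R2.GS

/-- There is a Hadamard matrix of order `n`. -/
def IsHadamardOrder (n : ℕ) : Prop :=
  ∃ H : Matrix (Fin n) (Fin n) ℤ, (∀ i j, H i j = 1 ∨ H i j = -1) ∧
    H * Matrix.transpose H = (n : ℤ) • (1 : Matrix (Fin n) (Fin n) ℤ)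

/-- For each `q` in the list there is a Hadamard matrix of order `4 * q`, and one of order
`8 * (q * b)` for every `b` such that there is a Hadamard matrix of order `4 * b`. -/
theorem result : ∀ q ∈ ([223, 311, 487] : List ℕ),
    IsHadamardOrder (4 * q) ∧ ∀ b : ℕ, IsHadamardOrder (4 * b) → IsHadamardOrder (8 * (q * b)) := by
  intro q hq
  have h : HasHadamard (4 * q) := by
    simp only [List.mem_cons, List.not_mem_nil, or_false] at hq
    rcases hq with rfl | rfl | rfl
    · exact hadamard223
    · exact hadamard311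
    · exact hadamard487
  exact ⟨h, fun b hb => hasHadamard_mul h hb⟩

end Pool.Agent.Results.MP_d8b1b3_co.NewOrders
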